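import Pool.Agent.Lib.LargeSieve.Vaughan
import Mathlib

-- merged part: Pool.Agent.Work.MP_75d6d0_nt.Setup
section
/-!
The family of moduli and the lower bound for the number of primes in the progressions.
-/

set_option autoImplicit false

namespace Pool.Agent.Work.MP_75d6d0_nt

open Finset Real ArithmeticFunction Filter Pool.Agent.Lib.LargeSieve

lemma prime_count_lower {q : ℕ} (hq : 0 < q) (a x : ℕ) (hx : 1 ≤ x) :
    (Chebyshev.theta x - Real.log q) / q
      ≤ Real.log x * ((Icc 1 x).filter fun p => p.Prime ∧ p ≡ a [MOD q]).card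
        + 2 * √x * Real.log x + |∑ n ∈ Icc 1 x, vonMangoldt n * kap q a n| := by
  have hq' : (0 : ℝ) < q := by exact_mod_cast hq
  have hφ : (0 : ℝ) < q.totient := by exact_mod_cast Nat.totient_pos.2 hq
  have hI : Ioc 0 x = Icc 1 x := rfl
  have e : ∑ n ∈ Icc 1 x, vonMangoldt n * kap q a n
      = ∑ n ∈ Icc 1 x with n ≡ a [MOD q], vonMangoldt n
        - 1 / (q.totient : ℝ) * ∑ n ∈ Icc 1 x with Nat.Coprime n q, vonMangoldt n := by
    rw [sum_filter, sum_filter, mul_sum, ← sum_sub_distrib]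
    refine sum_congr rfl fun n _ => ?_
    unfold kap
    split_ifs <;> ring
  have h1 : ∑ n ∈ Icc 1 x with n ≡ a [MOD q], vonMangoldt n
      ≤ Real.log x * ((Icc 1 x).filter fun p => p.Prime ∧ p ≡ a [MOD q]).card
        + 2 * √x * Real.log x := by
    rw [← sum_filter_add_sum_filter_not _ Nat.Prime]
    apply add_le_add
    · rw [filter_filter, mul_comm, ← nsmul_eq_mul]
      simp_rw [and_comm]
      refine sum_le_card_nsmul _ _ _ fun n hn => ?_
      exact vonMangoldt_le_log.trans (log_nat_mono (mem_Icc.1 (mem_filter.1 hn).1).2)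
    · refine le_trans ?_ (Chebyshev.psi_sub_theta_le (x := x) (by exact_mod_cast hx))
      rw [Chebyshev.psi_sub_theta_eq_sum_not_prime, Nat.floor_natCast, hI]
      refine sum_le_sum_of_subset_of_nonneg ?_ fun _ _ _ => vonMangoldt_nonneg
      exact filter_subset_filter _ (filter_subset _ _)
  have h2 : Chebyshev.theta x - Real.log q ≤ ∑ n ∈ Icc 1 x with Nat.Coprime n q, vonMangoldt n := by
    rw [Chebyshev.theta, Nat.floor_natCast, hI,
      ← sum_filter_add_sum_filter_not _ (fun n => Nat.Coprime n q), sub_le_iff_le_add]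
    apply add_le_add
    · calc _ = ∑ p ∈ ((Icc 1 x).filter Nat.Prime).filter (fun n => Nat.Coprime n q),
            vonMangoldt p := sum_congr rfl fun p hp =>
              (vonMangoldt_apply_prime (mem_filter.1 (mem_filter.1 hp).1).2).symm
        _ ≤ _ := sum_le_sum_of_subset_of_nonneg (filter_subset_filter _ (filter_subset _ _))
              fun _ _ _ => vonMangoldt_nonneg
    · calc _ ≤ ∑ p ∈ q.primeFactors, Real.log p := by
            refine sum_le_sum_of_subset_of_nonneg ?_ fun p _ _ => Real.log_natCast_nonneg p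
            intro p hp
            simp only [mem_filter] at hp
            exact Nat.mem_primeFactors.2 ⟨hp.1.2, (hp.1.2.dvd_iff_not_coprime).2 hp.2, hq.ne'⟩
        _ = Real.log (∏ p ∈ q.primeFactors, p : ℕ) := by
            rw [Nat.cast_prod, Real.log_prod]
            intro p hp
            exact_mod_cast (Nat.prime_of_mem_primeFactors hp).ne_zero
        _ ≤ _ := log_nat_mono (Nat.le_of_dvd hq (Nat.prod_primeFactors_dvd q))
  have h3 : (Chebyshev.theta x - Real.log q) / q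
      ≤ 1 / (q.totient : ℝ) * ∑ n ∈ Icc 1 x with Nat.Coprime n q, vonMangoldt n := by
    clear * - q x h2 hq
    have h0 : 0 ≤ ∑ n ∈ Icc 1 x with Nat.Coprime n q, vonMangoldt n :=
      sum_nonneg fun _ _ => vonMangoldt_nonneg
    have h4 : (q.totient : ℝ) ≤ q := by exact_mod_cast Nat.totient_le q
    rw [one_div_mul_eq_div]
    gcongr
  have h5 := neg_abs_le (∑ n ∈ Icc 1 x, vonMangoldt n * kap q a n)
  linarith

lemma ev_log_pow (C : ℝ) (n : ℕ) : ∀ᶠ w : ℕ in atTop, C * Real.log w ^ n ≤ w := by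
  have h := (Real.isLittleO_pow_log_id_atTop (n := n)).bound
    (c := 1 / (|C| + 1)) (by positivity)
  filter_upwards [tendsto_natCast_atTop_atTop.eventually h] with w hw
  simp only [id, norm_pow, Real.norm_eq_abs, Nat.abs_cast] at hw
  rw [abs_of_nonneg (Real.log_natCast_nonneg w), one_div_mul_eq_div,
    le_div_iff₀ (by positivity)] at hw
  have := le_abs_self C
  have h0 : 0 ≤ Real.log w ^ n := pow_nonneg (Real.log_natCast_nonneg w) n
  nlinarith

lemma ev_theta : ∀ᶠ n : ℕ in atTop, 0.64 * (n : ℝ) ≤ Chebyshev.theta n ∧ 10 * Real.log n ≤ n := by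
  filter_upwards [ev_log_pow 2500 2, ev_log_pow 200 1, eventually_ge_atTop 2] with n h1 h2 h3
  have h4 := Chebyshev.theta_ge n
  have hn : (2 : ℝ) ≤ n := by exact_mod_cast h3
  have hl := Real.log_natCast_nonneg n
  rw [pow_one] at h2
  have h5 : Real.log (n + 1) ≤ 2 * Real.log n := by
    rw [← Real.log_rpow (by linarith)]
    apply Real.log_le_log (by linarith)
    rw [Real.rpow_two]; nlinarith
  have h6 : 50 * Real.log n ≤ √n := by
    apply Real.le_sqrt_of_sq_le; nlinarith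
  have h7 : √n * √n = n := Real.mul_self_sqrt (by linarith)
  have h8 := Real.log_two_gt_d9
  have h9 : 0 ≤ √(n : ℝ) := Real.sqrt_nonneg _
  constructor
  · nlinarith
  · linarith

/-- primes above `y` and at most `4y` -/
def primesIn (y : ℕ) : Finset ℕ := (Ioc y (4 * y)).filter Nat.Prime

lemma mem_primesIn {y p : ℕ} : p ∈ primesIn y ↔ (y < p ∧ p ≤ 4 * y) ∧ p.Prime := by
  simp [primesIn]

lemma card_primesIn_le (y : ℕ) : (primesIn y).card ≤ 3 * y := by
  refine (card_filter_le _ _).trans ?_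
  rw [Nat.card_Ioc]; omega

lemma ev_primesIn : ∀ᶠ y : ℕ in atTop, (y : ℝ) ≤ (primesIn y).card * Real.log (4 * y : ℕ) := by
  obtain ⟨N, hN⟩ := eventually_atTop.1 ev_theta
  filter_upwards [eventually_ge_atTop N] with y hy
  have h1 := (hN (4 * y) (by omega)).1
  have h2 := Chebyshev.theta_le_log4_mul_x (x := y) (by positivity)
  have h3 : Chebyshev.theta (4 * y : ℕ) ≤ Chebyshev.theta y
      + (primesIn y).card * Real.log (4 * y : ℕ) := by
    rw [Chebyshev.theta, Chebyshev.theta, Nat.floor_natCast, Nat.floor_natCast,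
      ← Ioc_union_Ioc_eq_Ioc (Nat.zero_le y) (by omega : y ≤ 4 * y), filter_union, sum_union]
    · apply add_le_add le_rfl
      rw [← nsmul_eq_mul]
      exact sum_le_card_nsmul _ _ _ fun p hp => log_nat_mono (mem_primesIn.1 hp).1.2
    · exact disjoint_filter_filter (Ioc_disjoint_Ioc_of_le le_rfl)
  have h4 : Real.log 4 = 2 * Real.log 2 := by
    rw [show (4 : ℝ) = 2 ^ 2 by norm_num, Real.log_pow]; norm_num
  have h5 := Real.log_two_lt_d9
  have h6 : (0 : ℝ) ≤ y := by positivity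
  push_cast at h1 h3 ⊢
  clear * - y h2 h1 h3 h4 h5
  nlinarith

/-- product of a set of naturals -/
def uu (s : Finset ℕ) : ℕ := ∏ r ∈ s, r

/-- the `k`-subsets of the primes above `w²` and at most `4w²` -/
def Uset (w k : ℕ) : Finset (Finset ℕ) := powersetCard k (primesIn (w ^ 2))

/-- index set of the moduli -/
def Iset (w k : ℕ) : Finset (Finset ℕ × ℕ) := Uset w k ×ˢ primesIn (w ^ 3)

/-- the moduli -/
def qq (i : Finset ℕ × ℕ) : ℕ := uu i.1 * i.2

/-- the residue classes -/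
def aa (i : Finset ℕ × ℕ) : ℕ :=
  if h : Nat.Coprime (uu i.1) i.2 then (Nat.chineseRemainder h 1 (i.2 - 1)).1 else 1

/-- sum of the reciprocals of the moduli -/
noncomputable def eta (w k : ℕ) : ℝ := ∑ i ∈ Iset w k, 1 / (qq i : ℝ)

section
variable {w k : ℕ} {s : Finset ℕ}

lemma mem_of_Uset (hs : s ∈ Uset w k) {r : ℕ} (hr : r ∈ s) : (w ^ 2 < r ∧ r ≤ 4 * w ^ 2) ∧ r.Prime :=
  mem_primesIn.1 ((mem_powersetCard.1 hs).1 hr)

lemma card_of_Uset (hs : s ∈ Uset w k) : s.card = k := (mem_powersetCard.1 hs).2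

lemma uu_pos (hs : s ∈ Uset w k) : 0 < uu s := prod_pos fun _ hr => (mem_of_Uset hs hr).2.pos

lemma le_uu (hs : s ∈ Uset w k) : w ^ (2 * k) ≤ uu s := by
  rw [pow_mul, ← card_of_Uset hs]
  exact pow_card_le_prod _ _ _ fun r hr => (mem_of_Uset hs hr).1.1.le

lemma uu_le (hs : s ∈ Uset w k) : uu s ≤ 4 ^ k * w ^ (2 * k) := by
  rw [pow_mul, ← mul_pow, ← card_of_Uset hs]
  exact prod_le_pow_card _ _ _ fun r hr => (mem_of_Uset hs hr).1.2

lemma primeFactors_uu (hs : s ∈ Uset w k) : (uu s).primeFactors = s :=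
  Nat.primeFactors_prod fun _ hr => (mem_of_Uset hs hr).2

lemma uu_injOn : Set.InjOn uu (Uset w k) := fun s hs t ht h => by
  rw [← primeFactors_uu hs, ← primeFactors_uu ht, h]

lemma uu_dvd (hs : s ∈ Uset w k) : uu s ∣ ∏ r ∈ primesIn (w ^ 2), r :=
  prod_dvd_prod_of_subset _ _ _ (mem_powersetCard.1 hs).1

lemma cube_gt (hw : 4 ≤ w) : 4 * w ^ 2 ≤ w ^ 3 := by
  rw [pow_succ' w 2]; exact Nat.mul_le_mul_right _ hw

lemma coprime_uu (hw : 4 ≤ w) (hs : s ∈ Uset w k) {l : ℕ} (hl : l ∈ primesIn (w ^ 3)) :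
    Nat.Coprime (uu s) l := by
  apply Nat.Coprime.prod_left
  intro r hr
  have h1 := mem_of_Uset hs hr
  have h2 := mem_primesIn.1 hl
  have := cube_gt hw
  exact (Nat.coprime_primes h1.2 h2.2).2 (by omega)

variable {i : Finset ℕ × ℕ}

lemma qq_pos (hi : i ∈ Iset w k) : 0 < qq i :=
  Nat.mul_pos (uu_pos (mem_product.1 hi).1) (mem_primesIn.1 (mem_product.1 hi).2).2.pos

lemma primeFactors_qq (hw : 4 ≤ w) (hi : i ∈ Iset w k) : (qq i).primeFactors = insert i.2 i.1 := by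
  obtain ⟨hs, hl⟩ := mem_product.1 hi
  rw [qq, (coprime_uu hw hs hl).primeFactors_mul, primeFactors_uu hs,
    (mem_primesIn.1 hl).2.primeFactors, union_comm, ← insert_eq]

lemma lt_of_mem_primeFactors_qq (hw : 4 ≤ w) (hi : i ∈ Iset w k) {p : ℕ}
    (hp : p ∈ (qq i).primeFactors) : w ^ 2 < p := by
  obtain ⟨hs, hl⟩ := mem_product.1 hi
  rw [primeFactors_qq hw hi, mem_insert] at hp
  have := cube_gt hw
  rcases hp with rfl | hp
  · have := (mem_primesIn.1 hl).1.1; omega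
  · exact (mem_of_Uset hs hp).1.1

lemma qq_injOn (hw : 4 ≤ w) : Set.InjOn qq (Iset w k) := by
  rintro ⟨s, l⟩ hi ⟨t, l'⟩ hj h
  obtain ⟨hs, hl⟩ := mem_product.1 (mem_coe.1 hi)
  obtain ⟨ht, hl'⟩ := mem_product.1 (mem_coe.1 hj)
  have e : l = l' := by
    have h1 : l ∣ uu t * l' := by
      have : qq (s, l) = uu t * l' := h
      rw [← this]; exact Dvd.intro_left _ rfl
    have h2 := (coprime_uu hw ht hl).symm.dvd_of_dvd_mul_left h1
    exact (Nat.prime_dvd_prime_iff_eq (mem_primesIn.1 hl).2 (mem_primesIn.1 hl').2).1 h2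
  subst e
  have h3 : uu s = uu t := Nat.eq_of_mul_eq_mul_right (mem_primesIn.1 hl).2.pos h
  have h4 : s = t := uu_injOn hs ht h3
  rw [h4]

lemma qq_le (hi : i ∈ Iset w k) : qq i ≤ 4 ^ (k + 1) * w ^ (2 * k + 3) := by
  obtain ⟨hs, hl⟩ := mem_product.1 hi
  calc qq i ≤ (4 ^ k * w ^ (2 * k)) * (4 * w ^ 3) :=
        Nat.mul_le_mul (uu_le hs) (mem_primesIn.1 hl).1.2
    _ = _ := by ring

lemma qq_lt (hw : 4 ^ (k + 1) < w) (hi : i ∈ Iset w k) : qq i < w ^ (2 * k + 4) := by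
  refine (qq_le hi).trans_lt ?_
  rw [pow_succ' w (2 * k + 3)]
  exact Nat.mul_lt_mul_of_pos_right hw (pow_pos (Nat.zero_lt_of_lt hw) _)

lemma half_le_pow {t : ℝ} {n : ℕ} (ht1 : t ≤ 1) (h : 2 * n * t ≤ 1) : 1 / 2 ≤ (1 - t) ^ n := by
  have := one_add_mul_le_pow (a := -t) (by linarith) n
  rw [← sub_eq_add_neg] at this
  linarith

lemma qq_le_totient (hw : 4 ≤ w) (hk : 2 * (k + 1) ≤ w) (hi : i ∈ Iset w k) :
    qq i ≤ 2 * (qq i).totient := by
  have hw0 : (0 : ℚ) < w := by exact_mod_cast (by omega : 0 < w)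
  have h1 := Nat.totient_eq_mul_prod_factors (qq i)
  have h2 : (1 / 2 : ℚ) ≤ ∏ p ∈ (qq i).primeFactors, (1 - (p : ℚ)⁻¹) := by
    have hc : (qq i).primeFactors.card ≤ k + 1 := by
      rw [primeFactors_qq hw hi, ← card_of_Uset (mem_product.1 hi).1]
      exact card_insert_le _ _
    have hw1 : (1 : ℚ) ≤ w := by exact_mod_cast (by omega : 1 ≤ w)
    have t1 : (w : ℚ)⁻¹ ≤ 1 := inv_le_one_of_one_le₀ hw1
    have h3 : (1 - (w : ℚ)⁻¹) ^ (qq i).primeFactors.card
        ≤ ∏ p ∈ (qq i).primeFactors, (1 - (p : ℚ)⁻¹) := by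
      clear * - w i t1 k hw hi hw0
      rw [← prod_const]
      refine prod_le_prod (fun _ _ => by linarith) fun p hp => ?_
      have := lt_of_mem_primeFactors_qq hw hi hp
      have h4 : w ≤ p := by nlinarith
      have h5 : (w : ℚ) ≤ p := by exact_mod_cast h4
      have := inv_anti₀ hw0 h5
      linarith
    refine le_trans ?_ h3
    have := one_add_mul_le_pow (a := -(w : ℚ)⁻¹) (by clear * - w t1 i; linarith) (qq i).primeFactors.card
    rw [← sub_eq_add_neg] at this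
    refine le_trans ?_ this
    have h6 : (2 * (qq i).primeFactors.card : ℚ) ≤ w := by
      exact_mod_cast (by omega : 2 * (qq i).primeFactors.card ≤ w)
    have h7 : ((qq i).primeFactors.card : ℚ) * (w : ℚ)⁻¹ ≤ 1 / 2 := by
      clear * - i w hw0 h6
      rw [← div_eq_mul_inv, div_le_iff₀ hw0]; linarith
    linarith
  have h3 : (qq i : ℚ) ≤ 2 * (qq i).totient := by
    rw [h1]
    have : (0 : ℚ) ≤ qq i := by positivity
    nlinarith
  exact_mod_cast h3

lemma le_of_dvd_qq (hw : 4 ≤ w) (hi : i ∈ Iset w k) (f : ℕ) (hf : f ∣ qq i) (hf1 : 1 < f) :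
    w ^ 2 ≤ f := by
  have h1 := Nat.minFac_prime hf1.ne'
  have h2 := lt_of_mem_primeFactors_qq hw hi
    (Nat.mem_primeFactors.2 ⟨h1, (Nat.minFac_dvd f).trans hf, (qq_pos hi).ne'⟩)
  exact h2.le.trans (Nat.minFac_le (by omega))

lemma aa_modEq (hw : 4 ≤ w) (hi : i ∈ Iset w k) :
    aa i ≡ 1 [MOD uu i.1] ∧ aa i ≡ i.2 - 1 [MOD i.2] := by
  obtain ⟨hs, hl⟩ := mem_product.1 hi
  unfold aa
  rw [dif_pos (coprime_uu hw hs hl)]
  exact (Nat.chineseRemainder (coprime_uu hw hs hl) 1 (i.2 - 1)).2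

lemma aa_coprime (hw : 4 ≤ w) (hi : i ∈ Iset w k) : Nat.Coprime (aa i) (qq i) := by
  obtain ⟨h1, h2⟩ := aa_modEq hw hi
  have hl := (mem_primesIn.1 (mem_product.1 hi).2).2
  apply Nat.Coprime.mul_right
  · rw [Nat.Coprime, h1.gcd_eq]; simp
  · rw [Nat.Coprime, h2.gcd_eq]
    exact (Nat.coprime_self_sub_left hl.one_le).2 (Nat.coprime_one_left _)

lemma dvd_of_modEq_aa (hw : 4 ≤ w) (hi : i ∈ Iset w k) {p : ℕ} (hp : 1 ≤ p)
    (h : p ≡ aa i [MOD qq i]) : uu i.1 ∣ p - 1 ∧ i.2 ∣ p + 1 := by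
  obtain ⟨h1, h2⟩ := aa_modEq hw hi
  have hl := (mem_primesIn.1 (mem_product.1 hi).2).2
  constructor
  · exact (Nat.modEq_iff_dvd' hp).1 ((h.of_mul_right _).trans h1).symm
  · have := ((h.of_mul_left _).trans h2).add_right 1
    rw [Nat.sub_add_cancel hl.one_le] at this
    exact (Nat.modEq_zero_iff_dvd).1 (this.trans ((Nat.modEq_zero_iff_dvd).2 dvd_rfl))

lemma sigInv_uu_le (hk : 2 * (k + 1) ≤ w) (hs : s ∈ Uset w k) : sigInv (uu s) ≤ 2 := by
  have hw1 : (1 : ℝ) ≤ w := by exact_mod_cast (by omega : 1 ≤ w)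
  have h1 := sigInv_prod_le s (fun p hp => (mem_of_Uset hs hp).2) w (by linarith) (fun p hp => by
    have := (mem_of_Uset hs hp).1.1
    have h4 : w ≤ p := by nlinarith
    exact_mod_cast h4)
  rw [card_of_Uset hs] at h1
  refine h1.trans ?_
  have t1 : 1 / (w : ℝ) ≤ 1 := by rw [div_le_one (by linarith)]; exact hw1
  have t0 : 0 ≤ 1 / (w : ℝ) := by positivity
  have h2 := half_le_pow (n := k) t1 (by
    rw [mul_one_div, div_le_one (by linarith)]
    exact_mod_cast (by omega : 2 * k ≤ w))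
  have h3 : (1 + 1 / (w : ℝ)) ^ k * (1 - 1 / (w : ℝ)) ^ k ≤ 1 := by
    clear * - w k t1 t0
    rw [← mul_pow]
    apply pow_le_one₀ (by nlinarith)
    nlinarith
  have h4 : 0 ≤ (1 + 1 / (w : ℝ)) ^ k := by positivity
  nlinarith

end

/-- lower bound for `eta` -/
lemma ev_eta (k : ℕ) : ∀ᶠ w : ℕ in atTop,
    1 ≤ eta w k * (20 * 32 ^ k * k.factorial * Real.log w ^ (k + 1)) := by
  have t2 : Tendsto (fun w : ℕ => w ^ 2) atTop atTop := tendsto_pow_atTop (by norm_num)
  have t3 : Tendsto (fun w : ℕ => w ^ 3) atTop atTop := tendsto_pow_atTop (by norm_num)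
  filter_upwards [t2.eventually ev_primesIn, t3.eventually ev_primesIn, eventually_ge_atTop 4,
    ev_log_pow (8 * k) 1] with w h2 h3 hw hk
  have hw0 : (4 : ℝ) ≤ w := by exact_mod_cast hw
  set lam := Real.log w with hlam
  have hl4 : Real.log 4 ≤ lam := Real.log_le_log (by norm_num) hw0
  have hl1 : 1 ≤ lam := by
    refine le_trans ?_ hl4
    rw [Real.le_log_iff_exp_le (by norm_num)]
    have := Real.exp_one_lt_d9; linarith
  rw [pow_one] at hk
  have l2 : Real.log (4 * w ^ 2 : ℕ) ≤ 4 * lam := by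
    clear * - w lam hw hl4 hl1
    push_cast
    rw [Real.log_mul (by norm_num) (by positivity), Real.log_pow]; push_cast; linarith
  have l3 : Real.log (4 * w ^ 3 : ℕ) ≤ 5 * lam := by
    push_cast
    rw [Real.log_mul (by norm_num) (by positivity), Real.log_pow]; push_cast; linarith
  set r := (primesIn (w ^ 2)).card
  set t := (primesIn (w ^ 3)).card
  have r1 : (w : ℝ) ^ 2 ≤ r * (4 * lam) := by
    refine le_trans (by push_cast; exact le_rfl) (h2.trans ?_); gcongr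
  have t1 : (w : ℝ) ^ 3 ≤ t * (5 * lam) := by
    refine le_trans (by push_cast; exact le_rfl) (h3.trans ?_); gcongr
  have r2 : 2 * k ≤ r := by
    clear * - k lam r w hw0 hk r1 hl1
    have : (2 * k : ℝ) * (4 * lam) ≤ r * (4 * lam) := by nlinarith
    have := le_of_mul_le_mul_right this (by linarith)
    exact_mod_cast this
  have r3 : (w : ℝ) ^ 2 ≤ (r + 1 - k : ℕ) * (8 * lam) := by
    clear * - r k w r2 lam r1 hl1
    have : (r : ℝ) ≤ 2 * (r + 1 - k : ℕ) := by exact_mod_cast (by omega : r ≤ 2 * (r + 1 - k))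
    nlinarith
  have c1 : ((r + 1 - k : ℕ) : ℝ) ^ k ≤ r.choose k * k.factorial := by
    have := Nat.pow_le_choose (α := ℝ) k r
    rwa [div_le_iff₀ (by positivity)] at this
  have c2 : ((w : ℝ) ^ 2) ^ k ≤ r.choose k * k.factorial * (8 * lam) ^ k := by
    calc _ ≤ ((r + 1 - k : ℕ) * (8 * lam)) ^ k := pow_le_pow_left₀ (by positivity) r3 k
      _ = ((r + 1 - k : ℕ) : ℝ) ^ k * (8 * lam) ^ k := mul_pow _ _ _
      _ ≤ _ := by gcongr
  have e1 : (r.choose k * t : ℝ) / (4 ^ (k + 1) * (w : ℝ) ^ (2 * k + 3)) ≤ eta w k := by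
    clear * - w k r t
    have hc : (Iset w k).card = r.choose k * t := by
      rw [Iset, card_product, Uset, card_powersetCard]
    have := card_nsmul_le_sum (Iset w k) (fun i => 1 / (qq i : ℝ))
      (1 / (4 ^ (k + 1) * (w : ℝ) ^ (2 * k + 3))) (fun i hi => by
        apply one_div_le_one_div_of_le (by exact_mod_cast qq_pos hi)
        exact_mod_cast qq_le hi)
    rw [hc, nsmul_eq_mul, mul_one_div] at this
    exact_mod_cast this
  refine le_trans ?_ (mul_le_mul_of_nonneg_right e1 (by positivity))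
  rw [div_mul_eq_mul_div, le_div_iff₀ (by positivity), one_mul]
  calc (4 : ℝ) ^ (k + 1) * (w : ℝ) ^ (2 * k + 3)
      = 4 ^ (k + 1) * (((w : ℝ) ^ 2) ^ k * (w : ℝ) ^ 3) := by ring
    _ ≤ 4 ^ (k + 1) * ((r.choose k * k.factorial * (8 * lam) ^ k) * (t * (5 * lam))) := by clear * - k w r lam t c2 t1 hw hl1; gcongr
    _ = _ := by
      rw [show (32 : ℝ) = 4 * 8 by norm_num, mul_pow, mul_pow]; ring

end Pool.Agent.Work.MP_75d6d0_nt
end

-- merged part: Pool.Agent.Work.MP_75d6d0_nt.Count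
section
/-!
Counting primes `p = u v + 1` with `v` free of large prime factors.
-/

set_option autoImplicit false

namespace Pool.Agent.Work.MP_75d6d0_nt

open Finset Real ArithmeticFunction Filter Pool.Agent.Lib.LargeSieve

open Classical in
/-- primes in the progression whose cofactor has a large prime factor -/
noncomputable def badSet (w m : ℕ) (i : Finset ℕ × ℕ) : Finset ℕ :=
  (Icc 1 (w ^ (8 * m + 46))).filter fun p => p.Prime ∧ uu i.1 ∣ p - 1 ∧ i.2 ∣ p + 1 ∧
    ∃ s ∈ ((p - 1) / uu i.1).primeFactors, w ^ (4 * m + 5) < s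

lemma bad_le {m w : ℕ} {i : Finset ℕ × ℕ} (hi : i ∈ Iset w (2 * m + 8))
    (hw1 : 2 * (2 * m + 8 + 1) ≤ w) (hw2 : 4 ^ (2 * m + 8 + 1) < w)
    (hL : 1 + Real.log (w ^ (8 * m + 46) : ℕ) ≤ w) (hlam : 1 ≤ Real.log w) :
    ((badSet w m i).card : ℝ) * (m * Real.log w) ^ 2
      ≤ 10000 * Real.log w * ((w : ℝ) ^ (8 * m + 46) / qq i) := by
  obtain ⟨hs, hl⟩ := mem_product.1 hi
  obtain ⟨⟨hl1, hl2⟩, hl3⟩ := mem_primesIn.1 hl
  have hu := uu_pos hs
  have hw0 : 0 < w := by omega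
  have hl4 : 2 < i.2 := by
    have : 2 ^ 3 ≤ w ^ 3 := Nat.pow_le_pow_left (by omega) 3
    omega
  set u := uu i.1 with hu'
  set l := i.2 with hl'
  set x := w ^ (8 * m + 46) with hx
  set S : ℕ → Finset ℕ := fun a => (Icc 1 (x / (u * a))).filter fun s =>
    s.Prime ∧ (w ^ m) ^ 2 < s ∧ (u * a * s + 1).Prime ∧ l ∣ u * a * s + 2 with hS
  have h1 : ((badSet w m i).card : ℝ) ≤ ∑ a ∈ Icc 1 (w ^ 25), ((S a).card : ℝ) := by
    clear * - w m i S u hu hu' x l hS hs hx hw0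
    have := sum_le_of_section (badSet w m i) ((Icc 1 (w ^ 25)).sigma S) (fun _ => (1 : ℝ))
      (fun _ => (1 : ℝ)) (fun y => u * y.1 * y.2 + 1) (fun _ _ => zero_le_one) (by
        intro p hp
        simp only [badSet, mem_filter, mem_Icc] at hp
        obtain ⟨⟨-, hpx⟩, hpp, ⟨v, hv⟩, hpl, s, hs1, hs2⟩ := hp
        rw [hv, Nat.mul_div_cancel_left _ hu] at hs1
        obtain ⟨hsp, ⟨a, ha⟩, hv0⟩ := Nat.mem_primeFactors.1 hs1
        have ha0 : 0 < a := by
          rcases Nat.eq_zero_or_pos a with rfl | h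
          · simp at ha; exact absurd ha hv0
          · exact h
        have hp1 : u * a * s + 1 = p := by
          have := hpp.one_le
          rw [mul_assoc, mul_comm a s, ← ha, hu', ← hv]; omega
        have hle : u * a * s ≤ x := by omega
        refine ⟨⟨a, s⟩, ?_, hp1, le_rfl⟩
        simp only [mem_sigma, mem_Icc, hS, mem_filter]
        refine ⟨⟨ha0, ?_⟩, ⟨hsp.one_le, ?_⟩, hsp, ?_, hp1 ▸ hpp, ?_⟩
        · have h2 : w ^ (2 * (2 * m + 8)) * a * w ^ (4 * m + 5) ≤ x :=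
            le_trans (Nat.mul_le_mul (Nat.mul_le_mul_right _ (le_uu hs)) hs2.le) hle
          have h3 : x = w ^ (2 * (2 * m + 8)) * w ^ 25 * w ^ (4 * m + 5) := by rw [hx]; ring
          rw [h3] at h2
          exact Nat.le_of_mul_le_mul_left (Nat.le_of_mul_le_mul_right h2 (by positivity))
            (by positivity)
        · exact (Nat.le_div_iff_mul_le (Nat.mul_pos hu ha0)).2 (by rwa [mul_comm])
        · refine lt_of_le_of_lt ?_ hs2
          rw [← pow_mul]; exact Nat.pow_le_pow_right hw0 (by omega)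
        · rw [show u * a * s + 2 = p + 1 by omega]; exact hpl)
    rw [sum_sigma] at this
    simpa using this
  have hq : (qq i : ℝ) = u * l := by simp [qq, hu', hl']
  have hq0 : (0 : ℝ) < qq i := by exact_mod_cast qq_pos hi
  have h2 : ∀ a ∈ Icc 1 (w ^ 25), ((S a).card : ℝ) * HH (w ^ m) ^ 2
      ≤ 192 * ((x : ℝ) / qq i) * (sigInv a / a) := by
    clear * - w m u l x i hl3 hl4 hu hw1 hs hw2 hi hx hq0 hq hw0 hL
    intro a ha
    rw [mem_Icc] at ha
    have ha0 : (0 : ℝ) < a := by exact_mod_cast ha.1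
    refine (card_primes_twoForms l (u * a) (x / (u * a)) (w ^ m) hl3 hl4
      (Nat.mul_pos hu ha.1)).trans ?_
    have b1 : sigInv l ≤ 2 := by
      rw [sigInv_prime hl3]
      have : 1 / (l : ℝ) ≤ 1 := by
        rw [div_le_one (by exact_mod_cast hl3.pos)]; exact_mod_cast hl3.one_le
      linarith
    have b2 : sigInv (u * a * l) ≤ 2 * sigInv a * 2 := by
      refine (sigInv_mul_le _ _).trans (mul_le_mul ((sigInv_mul_le _ _).trans ?_) b1
        (sigInv_nonneg _) (by have := sigInv_nonneg a; positivity))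
      exact mul_le_mul_of_nonneg_right (sigInv_uu_le hw1 hs) (sigInv_nonneg a)
    have b3 : w ^ (4 * m + 1) * (qq i * a) ≤ x := by
      calc _ ≤ w ^ (4 * m + 1) * (w ^ (2 * (2 * m + 8) + 4) * w ^ 25) :=
            Nat.mul_le_mul_left _ (Nat.mul_le_mul (qq_lt hw2 hi).le ha.2)
        _ = x := by rw [hx]; ring
    have b4 : (w : ℝ) ^ (4 * m + 1) ≤ x / (qq i * a) := by
      rw [le_div_iff₀ (by positivity)]; exact_mod_cast b3
    have b5 : ((x / (u * a) / l : ℕ) : ℝ) ≤ x / (qq i * a) := by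
      rw [Nat.div_div_eq_div_mul]
      refine Nat.cast_div_le.trans (le_of_eq ?_)
      rw [hq]; push_cast; ring
    have b6 : (1 : ℝ) ≤ (w : ℝ) ^ (4 * m + 1) := one_le_pow₀ (by exact_mod_cast hw0)
    have b7 : ((((w ^ m) ^ 2) ^ 2 : ℕ) : ℝ) * HH (((w ^ m) ^ 2) ^ 2) ≤ (w : ℝ) ^ (4 * m + 1) := by
      have : HH (((w ^ m) ^ 2) ^ 2) ≤ w := by
        refine (HH_mono ?_).trans ((HH_le x).trans hL)
        rw [← pow_mul, ← pow_mul]; exact Nat.pow_le_pow_right hw0 (by omega)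
      calc _ ≤ ((((w ^ m) ^ 2) ^ 2 : ℕ) : ℝ) * w := by gcongr
        _ = _ := by push_cast; ring
    have b8 : ((x / (u * a) / l + 1 : ℕ) : ℝ) + ((((w ^ m) ^ 2) ^ 2 : ℕ) : ℝ) * HH (((w ^ m) ^ 2) ^ 2)
        ≤ 3 * (x / (qq i * a)) := by
      rw [Nat.cast_add, Nat.cast_one]; linarith
    have b9 := sigInv_nonneg a
    have b10 := sigInv_nonneg l
    have b11 := sigInv_nonneg (u * a * l)
    have b12 := HH_nonneg (((w ^ m) ^ 2) ^ 2)
    calc _ ≤ 8 * 2 * (2 * sigInv a * 2) * (3 * (x / (qq i * a))) := by gcongr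
      _ = _ := by field_simp; ring
  have h3 : m * Real.log w ≤ HH (w ^ m) := by
    refine le_trans (le_of_eq ?_) (log_le_HH _)
    push_cast; rw [Real.log_pow]
  have h4 : HH (w ^ 25) ≤ 26 * Real.log w := by
    clear * - w hlam
    refine (HH_le _).trans ?_
    push_cast; rw [Real.log_pow]; push_cast; linarith
  have h5 := sum_sigInv_div_le (w ^ 25)
  have hx0 : 0 ≤ (x : ℝ) / qq i := by positivity
  have hm0 : 0 ≤ m * Real.log w := by positivity
  calc _ ≤ (∑ a ∈ Icc 1 (w ^ 25), ((S a).card : ℝ)) * HH (w ^ m) ^ 2 :=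
        mul_le_mul h1 (pow_le_pow_left₀ hm0 h3 2) (pow_nonneg hm0 2)
          (sum_nonneg fun _ _ => Nat.cast_nonneg _)
    _ ≤ ∑ a ∈ Icc 1 (w ^ 25), 192 * ((x : ℝ) / qq i) * (sigInv a / a) := by
        rw [sum_mul]; exact sum_le_sum h2
    _ ≤ 192 * ((x : ℝ) / qq i) * (2 * (26 * Real.log w)) := by
        clear * - w x i h4 h5 hx0
        rw [← mul_sum]
        exact mul_le_mul_of_nonneg_left (by linarith) (by linarith)
    _ ≤ _ := by
        clear * - x w m hx i hlam hx0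
        have : (x : ℝ) = (w : ℝ) ^ (8 * m + 46) := by rw [hx]; push_cast; rfl
        rw [← this]
        have h0 : 0 ≤ Real.log w * ((x : ℝ) / qq i) := mul_nonneg (by linarith) hx0
        linarith

/-- admissible cofactors -/
def smoothSet (w m : ℕ) : Finset ℕ :=
  (Icc 1 (w ^ (4 * m + 30))).filter fun v => ∀ s ∈ v.primeFactors, s ≤ w ^ (4 * m + 5)

/-- number of workers attached to the cofactor `v` and the base prime `l` -/
def WW (w m v l : ℕ) : ℕ :=
  ((Uset w (2 * m + 8)).filter fun s => (uu s * v + 1).Prime ∧ l ∣ uu s * v + 2).card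

lemma count_split {m w : ℕ} {i : Finset ℕ × ℕ} (hi : i ∈ Iset w (2 * m + 8)) (hw : 4 ≤ w) :
    ((Icc 1 (w ^ (8 * m + 46))).filter fun p => p.Prime ∧ p ≡ aa i [MOD qq i]).card
      ≤ (badSet w m i).card +
        ((smoothSet w m).filter fun v => (uu i.1 * v + 1).Prime ∧ i.2 ∣ uu i.1 * v + 2).card := by
  have hs := (mem_product.1 hi).1
  have hu := uu_pos hs
  refine le_trans (card_le_card ?_) ((card_union_le _ _).trans (add_le_add le_rfl
    (card_image_le (f := fun v => uu i.1 * v + 1))))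
  intro p hp
  simp only [mem_filter, mem_Icc] at hp
  obtain ⟨⟨hp1, hp2⟩, hpp, hpa⟩ := hp
  obtain ⟨h1, h2⟩ := dvd_of_modEq_aa hw hi hp1 hpa
  rw [mem_union]
  by_cases hb : ∃ s ∈ ((p - 1) / uu i.1).primeFactors, w ^ (4 * m + 5) < s
  · left
    simp only [badSet, mem_filter, mem_Icc]
    exact ⟨⟨hp1, hp2⟩, hpp, h1, h2, hb⟩
  · right
    obtain ⟨v, hv⟩ := h1
    rw [hv, Nat.mul_div_cancel_left _ hu] at hb
    push Not at hb
    have e : uu i.1 * v + 1 = p := by omega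
    refine mem_image.2 ⟨v, ?_, e⟩
    simp only [mem_filter, smoothSet, mem_Icc]
    refine ⟨⟨⟨?_, ?_⟩, hb⟩, e ▸ hpp, by rw [show uu i.1 * v + 2 = p + 1 by omega]; exact h2⟩
    · rcases Nat.eq_zero_or_pos v with rfl | h
      · have := hpp.two_le; omega
      · exact h
    · have h3 : w ^ (2 * (2 * m + 8)) * v ≤ w ^ (2 * (2 * m + 8)) * w ^ (4 * m + 30) := by
        calc _ ≤ uu i.1 * v := Nat.mul_le_mul_right _ (le_uu hs)
          _ ≤ w ^ (8 * m + 46) := by omega
          _ = _ := by ring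
      exact Nat.le_of_mul_le_mul_left h3 (pow_pos (by omega) _)

lemma sum_good_eq (w m : ℕ) :
    ∑ i ∈ Iset w (2 * m + 8),
        ((smoothSet w m).filter fun v => (uu i.1 * v + 1).Prime ∧ i.2 ∣ uu i.1 * v + 2).card
      = ∑ v ∈ smoothSet w m, ∑ l ∈ primesIn (w ^ 3), WW w m v l := by
  simp only [WW, card_filter]
  rw [sum_comm]
  refine sum_congr rfl fun v _ => ?_
  rw [Iset, sum_product, sum_comm]

lemma WW_le {w m v l : ℕ} (hw : 4 ≤ w) (hl : l ∈ primesIn (w ^ 3)) :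
    WW w m v l ≤ 2 * 4 ^ (2 * m + 8) * w ^ (4 * m + 13) := by
  obtain ⟨⟨hl1, hl2⟩, hl3⟩ := mem_primesIn.1 hl
  have hw0 : 0 < w := by omega
  have hl4 : 2 < l := by
    have : 2 ^ 3 ≤ w ^ 3 := Nat.pow_le_pow_left (by omega) 3
    omega
  have hpos : 1 ≤ 4 ^ (2 * m + 8) * w ^ (4 * m + 13) := Nat.one_le_iff_ne_zero.2 (by positivity)
  have h1 : WW w m v l ≤ (range (4 ^ (2 * m + 8) * w ^ (4 * m + 13) + 1)).card := by
    refine card_le_card_of_injOn (fun s => uu s / l) ?_ ?_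
    · intro s hs
      have hs' := (mem_filter.1 (mem_coe.1 hs)).1
      refine mem_coe.2 (mem_range.2 (Nat.lt_succ_of_le (Nat.div_le_of_le_mul ?_)))
      calc uu s ≤ 4 ^ (2 * m + 8) * w ^ (2 * (2 * m + 8)) := uu_le hs'
        _ = w ^ 3 * (4 ^ (2 * m + 8) * w ^ (4 * m + 13)) := by ring
        _ ≤ _ := Nat.mul_le_mul_right _ hl1.le
    · intro s hs t ht hst
      obtain ⟨hs1, -, hs2⟩ := mem_filter.1 (mem_coe.1 hs)
      obtain ⟨ht1, -, ht2⟩ := mem_filter.1 (mem_coe.1 ht)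
      apply uu_injOn hs1 ht1
      have hcop : Nat.Coprime l v := by
        rw [hl3.coprime_iff_not_dvd]
        intro h
        have := Nat.le_of_dvd (by norm_num) ((Nat.dvd_add_right (h.mul_left (uu s))).1 hs2)
        omega
      have h3 : uu s * v + 2 ≡ uu t * v + 2 [MOD l] :=
        ((Nat.modEq_zero_iff_dvd).2 hs2).trans ((Nat.modEq_zero_iff_dvd).2 ht2).symm
      have h4 : uu s % l = uu t % l :=
        Nat.ModEq.cancel_right_of_coprime hcop (Nat.ModEq.add_right_cancel' 2 h3)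
      simp only at hst
      rw [← Nat.div_add_mod (uu s) l, ← Nat.div_add_mod (uu t) l, hst, h4]
  rw [card_range] at h1
  rw [mul_assoc]; omega

lemma final_ineq {J lam B G P Y m : ℝ} (hJ : 1 ≤ J) (hlam : 1 ≤ lam) (hB0 : 0 ≤ B)
    (hm : 80000 * J ≤ m ^ 2) (s5 : Y / 4 ≤ J * lam * P) (s6 : P ≤ B + G)
    (s7 : B * (m * lam) ^ 2 ≤ 10000 * lam * Y) : Y / (8 * J * lam) ≤ G := by
  have s8 : 8 * J * lam * B ≤ Y := by
    clear * - lam J B Y m hB0 hlam hm s7
    have : 10000 * lam * (8 * J * lam * B) ≤ 10000 * lam * Y := by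
      refine le_trans ?_ s7
      have : 0 ≤ B * lam ^ 2 := by positivity
      nlinarith
    exact le_of_mul_le_mul_left this (by positivity)
  rw [div_le_iff₀ (by positivity)]
  have s9 : J * lam * P ≤ J * lam * (B + G) := by gcongr
  clear * - Y G J lam P B s5 s8 s9
  nlinarith

lemma sum_WW_lower {m w : ℕ} (hm : 80000 * (8 * m + 46) ≤ m ^ 2)
    (hw1 : 2 * (2 * m + 8 + 1) ≤ w) (hw2 : 4 ^ (2 * m + 8 + 1) < w)
    (hL : 1 + Real.log (w ^ (8 * m + 46) : ℕ) ≤ w) (hlam : 1 ≤ Real.log w)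
    (hθ : 0.64 * ((w ^ (8 * m + 46) : ℕ) : ℝ) ≤ Chebyshev.theta (w ^ (8 * m + 46) : ℕ) ∧
      10 * Real.log (w ^ (8 * m + 46) : ℕ) ≤ (w ^ (8 * m + 46) : ℕ))
    (herr : 88 * ((8 * m + 46 : ℕ) : ℝ) ^ 2 * (1 + Real.log (w ^ (8 * m + 46) : ℕ)) ^ 4
      ≤ eta w (2 * m + 8) * w) :
    eta w (2 * m + 8) * (w : ℝ) ^ (8 * m + 46) / (8 * (8 * m + 46 : ℕ) * Real.log w)
      ≤ ∑ v ∈ smoothSet w m, ∑ l ∈ primesIn (w ^ 3), (WW w m v l : ℝ) := by
  have hw : 4 ≤ w := by omega
  have hw0 : (1 : ℝ) ≤ w := by exact_mod_cast (by omega : 1 ≤ w)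
  set k := 2 * m + 8 with hk
  set J := 8 * m + 46 with hJ
  set I := Iset w k with hI
  set lam := Real.log w with hlam'
  have hxc : ((w ^ J : ℕ) : ℝ) = (w : ℝ) ^ J := by push_cast; rfl
  have hlx : Real.log (w ^ J : ℕ) = J * lam := by rw [hxc, Real.log_pow]
  have hJ1 : (1 : ℝ) ≤ J := by exact_mod_cast (by omega : 1 ≤ J)
  have hbv := bv_lite I qq aa (qq_injOn hw) w (2 * k + 4) J (by omega) (fun i hi => qq_pos hi)
    (fun i hi => qq_lt hw2 hi) (fun i hi => qq_le_totient hw hw1 hi)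
    (fun i hi => le_of_dvd_qq hw hi) (fun i hi => aa_coprime hw hi) (by omega) (by omega)
  set L := 1 + Real.log (w ^ J : ℕ) with hLdef
  set X : ℝ := (w : ℝ) ^ J with hX
  set P : Finset ℕ × ℕ → ℕ := fun i =>
    ((Icc 1 (w ^ J)).filter fun p => p.Prime ∧ p ≡ aa i [MOD qq i]).card with hP
  have hX0 : 0 < X := by positivity
  have s1 : ∀ i ∈ I, X / 2 * (1 / (qq i : ℝ)) ≤ J * lam * P i + 2 * √X * (J * lam)
      + |∑ n ∈ Icc 1 (w ^ J), vonMangoldt n * kap (qq i) (aa i) n| := by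
    clear * - I w J k m hw X lam P hw2 hθ hX0 hxc hlx
    intro i hi
    have h1 := prime_count_lower (qq_pos hi) (aa i) (w ^ J) (Nat.one_le_pow _ _ (by omega))
    rw [hlx, hxc] at h1
    refine le_trans ?_ h1
    have h2 : Real.log (qq i) ≤ Real.log (w ^ J : ℕ) :=
      log_nat_mono ((qq_lt hw2 hi).le.trans (Nat.pow_le_pow_right (by omega) (by omega)))
    have h3 := hθ.1
    have h4 := hθ.2
    rw [hxc] at h2 h3 h4
    rw [mul_one_div]
    gcongr
    linarith
  have s2 := sum_le_sum s1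
  rw [← mul_sum, sum_add_distrib, sum_add_distrib, ← mul_sum, sum_const, nsmul_eq_mul] at s2
  change X / 2 * eta w k ≤ _ at s2
  have hcard : (I.card : ℝ) ≤ (w : ℝ) ^ (2 * k + 4) := by
    have := card_le_card_of_injOn qq (fun i hi => mem_coe.2 (mem_range.2 (qq_lt hw2 hi)))
      (qq_injOn (k := k) hw)
    rw [card_range] at this
    exact_mod_cast this
  have hsq : √X = (w : ℝ) ^ (4 * m + 23) := by
    rw [hX, show J = (4 * m + 23) * 2 by omega, pow_mul, Real.sqrt_sq (by positivity)]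
  have hL1 : J * lam ≤ L := by clear * - J lam L w hLdef hlx; rw [hLdef, hlx]; linarith
  have hL2 : 1 ≤ L := by clear * - L w J lam hlx hJ1 hlam; nlinarith
  have s3 : (I.card : ℝ) * (2 * √X * (J * lam)) ≤ 2 * (J : ℝ) ^ 2 * L ^ 4 * (w : ℝ) ^ (J - 1) := by
    clear * - w k m J hw0 lam L hL1 hL2 hJ1 I X hcard hw hlam hsq
    have t1 : (w : ℝ) ^ (2 * k + 4) * (w : ℝ) ^ (4 * m + 23) ≤ (w : ℝ) ^ (J - 1) := by
      rw [← pow_add]; exact pow_le_pow_right₀ hw0 (by omega)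
    have t2 : J * lam ≤ (J : ℝ) ^ 2 * L ^ 4 := by
      refine hL1.trans ((le_self_pow₀ hL2 (by norm_num : 4 ≠ 0)).trans ?_)
      exact le_mul_of_one_le_left (by positivity) (one_le_pow₀ hJ1)
    calc _ ≤ (w : ℝ) ^ (2 * k + 4) * (2 * √X * ((J : ℝ) ^ 2 * L ^ 4)) := by gcongr
      _ = 2 * (J : ℝ) ^ 2 * L ^ 4 * ((w : ℝ) ^ (2 * k + 4) * (w : ℝ) ^ (4 * m + 23)) := by
          rw [hsq]; ring
      _ ≤ _ := by gcongr
  have hXw : X = w * (w : ℝ) ^ (J - 1) := by
    rw [hX, ← pow_succ']; congr 1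
  have s4 : 22 * (J : ℝ) ^ 2 * L ^ 4 * (w : ℝ) ^ (J - 1) ≤ X / 4 * eta w k := by
    clear * - J L w X k hXw hw m herr hw0 hxc
    rw [hXw]
    have : (0 : ℝ) ≤ (w : ℝ) ^ (J - 1) := by positivity
    nlinarith
  have s5 : X / 4 * eta w k ≤ J * lam * ∑ i ∈ I, (P i : ℝ) := by clear * - X w k J lam I P L m hbv s2 s3 s4; linarith
  have s6 : ∑ i ∈ I, (P i : ℝ) ≤ ∑ i ∈ I, ((badSet w m i).card : ℝ)
      + ∑ v ∈ smoothSet w m, ∑ l ∈ primesIn (w ^ 3), (WW w m v l : ℝ) := by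
    have := sum_le_sum fun i (hi : i ∈ I) => count_split hi hw
    rw [sum_add_distrib, sum_good_eq] at this
    exact_mod_cast this
  have s7 : (∑ i ∈ I, ((badSet w m i).card : ℝ)) * (m * lam) ^ 2 ≤ 10000 * lam * (X * eta w k) := by
    rw [sum_mul, eta, mul_sum, mul_sum]
    refine sum_le_sum fun i hi => ?_
    rw [mul_one_div]
    exact bad_le hi hw1 hw2 hL hlam
  have hm' : 80000 * (J : ℝ) ≤ (m : ℝ) ^ 2 := by exact_mod_cast hm
  have hB0 : 0 ≤ ∑ i ∈ I, ((badSet w m i).card : ℝ) := sum_nonneg fun _ _ => Nat.cast_nonneg _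
  rw [mul_comm (eta w k)]
  have s5' : X * eta w k / 4 ≤ J * lam * ∑ i ∈ I, (P i : ℝ) := by clear * - X w k J lam I P L m hbv s2 s3 s4; linarith
  exact final_ineq hJ1 hlam hB0 hm' s5' s6 s7

lemma exists_cofactor {m w : ℕ} (hw : 4 ≤ w) (ρ : ℝ)
    (h1 : ρ * (w : ℝ) ^ (8 * m + 46) ≤ ∑ v ∈ smoothSet w m, ∑ l ∈ primesIn (w ^ 3), (WW w m v l : ℝ))
    (h2 : 8 * 4 ^ (2 * m + 8) + 3 ≤ ρ * w) :
    ∃ v ∈ smoothSet w m,
      4 * w ^ 2 ≤ ((primesIn (w ^ 3)).filter fun l => w ^ (4 * m + 12) ≤ WW w m v l).card := by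
  have hw0 : (0 : ℝ) < w := by exact_mod_cast (by omega : 0 < w)
  have hρ : 0 ≤ ρ := by
    by_contra h
    have : ρ * w < 0 := mul_neg_of_neg_of_pos (not_le.1 h) hw0
    have : (0 : ℝ) ≤ 8 * 4 ^ (2 * m + 8) + 3 := by positivity
    linarith
  have hne : (smoothSet w m).Nonempty :=
    ⟨1, mem_filter.2 ⟨mem_Icc.2 ⟨le_rfl, Nat.one_le_pow _ _ (by omega)⟩, by simp⟩⟩
  have hc : ((smoothSet w m).card : ℝ) ≤ (w : ℝ) ^ (4 * m + 30) := by
    have := card_filter_le (Icc 1 (w ^ (4 * m + 30)))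
      (fun v => ∀ s ∈ v.primeFactors, s ≤ w ^ (4 * m + 5))
    rw [Nat.card_Icc, Nat.add_sub_cancel] at this
    exact_mod_cast this
  obtain ⟨v, hv, hv2⟩ := exists_le_of_sum_le (f := fun _ => ρ * (w : ℝ) ^ (4 * m + 16)) hne
    (le_trans (by
      rw [sum_const, nsmul_eq_mul]
      calc _ ≤ (w : ℝ) ^ (4 * m + 30) * (ρ * (w : ℝ) ^ (4 * m + 16)) := by gcongr
        _ = _ := by ring) h1)
  refine ⟨v, hv, ?_⟩
  set G := (primesIn (w ^ 3)).filter fun l => w ^ (4 * m + 12) ≤ WW w m v l with hG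
  have h3 : ∑ l ∈ primesIn (w ^ 3), WW w m v l
      ≤ G.card * (2 * 4 ^ (2 * m + 8) * w ^ (4 * m + 13)) + 3 * w ^ 3 * w ^ (4 * m + 12) := by
    rw [← sum_filter_add_sum_filter_not _ (fun l => w ^ (4 * m + 12) ≤ WW w m v l)]
    apply add_le_add
    · exact sum_le_card_nsmul _ _ _ fun l hl => WW_le hw (mem_filter.1 hl).1
    · refine (sum_le_card_nsmul _ _ (w ^ (4 * m + 12))
        fun l hl => (not_le.1 (mem_filter.1 hl).2).le).trans ?_
      exact Nat.mul_le_mul_right _ ((card_filter_le _ _).trans (card_primesIn_le _))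
  have h4 : ρ * (w : ℝ) ^ (4 * m + 16)
      ≤ G.card * (2 * 4 ^ (2 * m + 8) * (w : ℝ) ^ (4 * m + 13)) + 3 * w ^ 3 * w ^ (4 * m + 12) := by
    refine hv2.trans ?_
    exact_mod_cast h3
  have h5 : (4 * (w : ℝ) ^ 2) * (2 * 4 ^ (2 * m + 8) * (w : ℝ) ^ (4 * m + 13))
      ≤ G.card * (2 * 4 ^ (2 * m + 8) * (w : ℝ) ^ (4 * m + 13)) := by
    clear * - m w ρ h2 hw G h4
    have h6 := mul_le_mul_of_nonneg_right h2 (by positivity : 0 ≤ (w : ℝ) ^ (4 * m + 15))
    have e1 : ρ * (w : ℝ) ^ (4 * m + 16) = ρ * w * (w : ℝ) ^ (4 * m + 15) := by ring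
    have e2 : 3 * (w : ℝ) ^ 3 * w ^ (4 * m + 12) = 3 * (w : ℝ) ^ (4 * m + 15) := by ring
    have e3 : (4 * (w : ℝ) ^ 2) * (2 * 4 ^ (2 * m + 8) * (w : ℝ) ^ (4 * m + 13))
      = 8 * 4 ^ (2 * m + 8) * (w : ℝ) ^ (4 * m + 15) := by ring
    rw [e1, e2] at h4
    rw [e3]
    linarith
  have := le_of_mul_le_mul_right h5 (by positivity)
  exact_mod_cast this

end Pool.Agent.Work.MP_75d6d0_nt
end

-- merged part: Pool.Agent.Work.MP_75d6d0_nt.Construct
section
/-!
The combinatorial construction of integers `n` with `λ(n) ∣ σ(n)`.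
-/

set_option autoImplicit false

namespace Pool.Agent.Work.MP_75d6d0_nt

open Finset ArithmeticFunction

lemma dvd_pow_sub_one {c s : ℕ} (h : c.totient ∣ s) {a : ℤ} (ha : IsCoprime a (c : ℤ)) :
    (c : ℤ) ∣ a ^ s - 1 := by
  obtain ⟨k, rfl⟩ := h
  have hu : IsUnit (a : ZMod c) := (ZMod.coe_int_isUnit_iff_isCoprime a c).2 ha.symm
  rw [← ZMod.intCast_zmod_eq_zero_iff_dvd]
  push_cast
  have := ZMod.pow_totient hu.unit
  have h2 : (a : ZMod c) ^ c.totient = 1 := by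
    rw [← hu.unit_spec, ← Units.val_pow_eq_pow_val, this, Units.val_one]
  rw [pow_mul, h2, one_pow, sub_self]

lemma absorb {l m : ℕ} (hl : l.Prime) (hm : 0 < m) (hc : Nat.Coprime m l) :
    m * (l - 1) ∣ sigma 1 (l ^ ((m * (l - 1) ^ 2).totient - 1)) := by
  have hl1 : 0 < l - 1 := by have := hl.two_le; omega
  have hpos : 0 < (m * (l - 1) ^ 2).totient := Nat.totient_pos.2 (by positivity)
  rw [sigma_one_apply_prime_pow hl, Nat.sub_add_cancel hpos, Nat.geomSum_eq hl.two_le]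
  apply Nat.dvd_div_of_mul_dvd
  have hcop : Nat.Coprime l (m * (l - 1) ^ 2) := by
    apply Nat.Coprime.mul_right hc.symm
    apply Nat.Coprime.pow_right
    exact (Nat.coprime_self_sub_right hl.one_le).2 (Nat.coprime_one_right l)
  have := (Nat.modEq_iff_dvd' (Nat.one_le_pow _ _ hl.pos)).1 (Nat.ModEq.pow_totient hcop).symm
  convert this using 1
  ring

theorem construct (S G : Finset ℕ) (hS : ∀ p ∈ S, p.Prime) (hG : ∀ l ∈ G, l.Prime)
    (hdisj : Disjoint S G) (f : ℕ → ℕ) (hf0 : ∀ l ∈ G, 0 < f l)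
    (hfc : ∀ l ∈ G, Nat.Coprime (f l) l)
    (hcost : ∀ l ∈ G, f l * l ^ 2 ≤ (S.filter fun p => l ∣ p + 1).card)
    (hdvd : ∀ p ∈ S, p - 1 ∣ ∏ l ∈ G, f l) :
    ∃ n : ℕ, 0 < n ∧ (∏ p ∈ S, p) ∣ n ∧
      ∀ a : ℤ, IsCoprime a (n : ℤ) → (n : ℤ) ∣ a ^ sigma 1 n - 1 := by
  classical
  set e : ℕ → ℕ := fun l => if l ∈ S then 1 else (f l * (l - 1) ^ 2).totient - 1 with he
  have hP : ∀ p ∈ S ∪ G, p.Prime := fun p hp => (mem_union.1 hp).elim (hS p) (hG p)
  have hcop : ((S ∪ G : Finset ℕ) : Set ℕ).Pairwise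
      (Function.onFun Nat.Coprime fun p => p ^ e p) := fun p hp q hq hpq =>
    Nat.Coprime.pow _ _ ((Nat.coprime_primes (hP p hp) (hP q hq)).2 hpq)
  have heS : ∀ p ∈ S, e p = 1 := fun p hp => by simp [he, hp]
  have heG : ∀ l ∈ G, e l = (f l * (l - 1) ^ 2).totient - 1 := fun l hl => by
    simp [he, disjoint_right.1 hdisj hl]
  have hσ : sigma 1 (∏ p ∈ S ∪ G, p ^ e p)
      = (∏ p ∈ S, (p + 1)) * ∏ l ∈ G, sigma 1 (l ^ e l) := by
    rw [isMultiplicative_sigma.map_prod _ _ hcop, prod_union hdisj]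
    congr 1
    refine prod_congr rfl fun p hp => ?_
    rw [heS p hp, sigma_one_apply_prime_pow (hS p hp)]
    simp [sum_range_succ, add_comm]
  have habs : ∀ l ∈ G, f l * (l - 1) ∣ sigma 1 (l ^ e l) := fun l hl => by
    rw [heG l hl]; exact absorb (hG l hl) (hf0 l hl) (hfc l hl)
  refine ⟨∏ p ∈ S ∪ G, p ^ e p, prod_pos fun p hp => pow_pos (hP p hp).pos _, ?_, ?_⟩
  · rw [prod_union hdisj]
    apply Dvd.dvd.mul_right
    apply dvd_of_eq
    exact prod_congr rfl fun p hp => by rw [heS p hp, pow_one]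
  · intro a ha
    rw [Nat.cast_prod]
    apply prod_dvd_of_coprime
    · intro p hp q hq hpq
      exact Nat.isCoprime_iff_coprime.2 (hcop hp hq hpq)
    · intro p hp
      apply dvd_pow_sub_one
      · rw [hσ]
        rcases mem_union.1 hp with hp | hp
        · rw [heS p hp, pow_one, Nat.totient_prime (hS p hp)]
          refine (hdvd p hp).trans (Dvd.dvd.mul_left ?_ _)
          exact prod_dvd_prod_of_dvd _ _ fun l hl => (Dvd.intro _ rfl).trans (habs l hl)
        · rcases Nat.eq_zero_or_pos (e p) with h0 | h0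
          · rw [h0]; simp
          rw [Nat.totient_prime_pow (hG p hp) h0]
          apply mul_dvd_mul
          · have h1 : e p - 1 ≤ (S.filter fun q => p ∣ q + 1).card := by
              refine le_trans ?_ (hcost p hp)
              rw [heG p hp]
              have := Nat.totient_le (f p * (p - 1) ^ 2)
              have h2 : f p * (p - 1) ^ 2 ≤ f p * p ^ 2 :=
                Nat.mul_le_mul_left _ (Nat.pow_le_pow_left (Nat.sub_le _ _) 2)
              omega
            refine (pow_dvd_pow p h1).trans ?_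
            rw [← prod_const]
            exact (prod_dvd_prod_of_dvd _ _ fun q hq => (mem_filter.1 hq).2).trans
              (prod_dvd_prod_of_subset _ _ _ (filter_subset _ _))
          · exact ((Dvd.intro_left _ rfl).trans (habs p hp)).trans (dvd_prod_of_mem _ hp)
      · refine ha.of_isCoprime_of_dvd_right ?_
        exact_mod_cast dvd_prod_of_mem (fun p => p ^ e p) hp

lemma exists_assign (ms : List ℕ) : ∀ G : Finset ℕ, ms.length ≤ G.card →
    ∃ f : ℕ → ℕ, (∀ l, f l = 1 ∨ f l ∈ ms) ∧ ∏ l ∈ G, f l = ms.prod := by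
  induction ms with
  | nil => exact fun G _ => ⟨fun _ => 1, fun _ => Or.inl rfl, by simp⟩
  | cons m ms ih =>
    intro G hG
    rw [List.length_cons] at hG
    obtain ⟨l0, hl0⟩ : G.Nonempty := card_pos.1 (by omega)
    obtain ⟨f, hf1, hf2⟩ := ih (G.erase l0) (by rw [card_erase_of_mem hl0]; omega)
    refine ⟨Function.update f l0 m, fun l => ?_, ?_⟩
    · by_cases h : l = l0
      · subst h; simp
      · rw [Function.update_of_ne h]
        rcases hf1 l with h1 | h1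
        · exact Or.inl h1
        · exact Or.inr (List.mem_cons_of_mem _ h1)
    · rw [prod_update_of_mem hl0, List.prod_cons, ← hf2, sdiff_singleton_eq_erase]

end Pool.Agent.Work.MP_75d6d0_nt
end

-- merged part: Pool.Agent.Work.MP_75d6d0_nt.Main
section
/-!
Infinitely many composite `n` with `a ^ σ(n) ≡ 1 (mod n)` for all `a` coprime to `n`.
-/

set_option autoImplicit false

namespace Pool.Agent.Work.MP_75d6d0_nt

open Finset Real ArithmeticFunction Filter Pool.Agent.Lib.LargeSieve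

lemma of_cofactor {m w v : ℕ} (hw : 4 * m + 30 ≤ w) (hv : v ∈ smoothSet w m)
    (hG : 4 * w ^ 2 ≤ ((primesIn (w ^ 3)).filter fun l => w ^ (4 * m + 12) ≤ WW w m v l).card) :
    ∃ n : ℕ, w < n ∧ ¬ n.Prime ∧ ∀ a : ℤ, IsCoprime a (n : ℤ) → (n : ℤ) ∣ a ^ sigma 1 n - 1 := by
  have hw4 : 4 ≤ w := by omega
  have hw0 : 0 < w := by omega
  obtain ⟨hv1, hv2⟩ := mem_filter.1 hv
  obtain ⟨hv0, hv1⟩ := mem_Icc.1 hv1
  set G := (primesIn (w ^ 3)).filter fun l => w ^ (4 * m + 12) ≤ WW w m v l with hGdef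
  set S := ((Uset w (2 * m + 8)).filter fun s => (uu s * v + 1).Prime).image
    fun s => uu s * v + 1 with hSdef
  set ms := (primesIn (w ^ 2)).toList ++ v.primeFactorsList with hms
  have hlen : ms.length ≤ G.card := by
    clear * - ms w G v hms m hv0 hw hv1 hG
    refine le_trans ?_ hG
    rw [hms, List.length_append, length_toList]
    have h1 := card_primesIn_le (w ^ 2)
    have h2 : 2 ^ v.primeFactorsList.length ≤ v := by
      conv_rhs => rw [← Nat.prod_primeFactorsList (by omega : v ≠ 0)]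
      exact List.pow_card_le_prod _ _ fun x hx => (Nat.prime_of_mem_primeFactorsList hx).two_le
    have h3 : w ^ (4 * m + 30) ≤ 2 ^ (w ^ 2) := by
      calc w ^ (4 * m + 30) ≤ (2 ^ w) ^ (4 * m + 30) :=
            Nat.pow_le_pow_left Nat.lt_two_pow_self.le _
        _ = 2 ^ (w * (4 * m + 30)) := by rw [← pow_mul]
        _ ≤ _ := Nat.pow_le_pow_right (by norm_num) (by rw [sq]; exact Nat.mul_le_mul_left _ hw)
    have h4 : v.primeFactorsList.length ≤ w ^ 2 :=
      (Nat.pow_le_pow_iff_right (by norm_num)).1 (h2.trans (hv1.trans h3))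
    omega
  obtain ⟨f, hf1, hf2⟩ := exists_assign ms G hlen
  have hWS : ∀ l, WW w m v l ≤ (S.filter fun p => l ∣ p + 1).card := by
    intro l
    refine card_le_card_of_injOn (fun s => uu s * v + 1) ?_ ?_
    · intro s hs
      obtain ⟨h1, h2, h3⟩ := mem_filter.1 (mem_coe.1 hs)
      exact mem_coe.2 (mem_filter.2 ⟨mem_image_of_mem _ (mem_filter.2 ⟨h1, h2⟩), h3⟩)
    · intro s hs t ht hst
      apply uu_injOn (mem_filter.1 (mem_coe.1 hs)).1 (mem_filter.1 (mem_coe.1 ht)).1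
      exact Nat.eq_of_mul_eq_mul_right hv0 (Nat.add_right_cancel hst)
  have hbig : ∀ p ∈ S, w ^ 4 < p := by
    intro p hp
    obtain ⟨s, hs, rfl⟩ := mem_image.1 hp
    have h1 := le_uu (mem_filter.1 hs).1
    have h2 : w ^ 4 ≤ w ^ (2 * (2 * m + 8)) := Nat.pow_le_pow_right hw0 (by omega)
    have h3 : uu s ≤ uu s * v := Nat.le_mul_of_pos_right _ hv0
    omega
  have hSp : ∀ p ∈ S, p.Prime := by
    intro p hp
    obtain ⟨s, hs, rfl⟩ := mem_image.1 hp
    exact (mem_filter.1 hs).2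
  have hT2 : 2 ≤ w ^ (4 * m + 12) := le_trans (by omega) (Nat.le_self_pow (by omega) w)
  have hitem : ∀ l ∈ G, ∀ x ∈ ms, x.Prime ∧ x ≠ l ∧ x ≤ w ^ (4 * m + 5) := by
    clear * - G ms w m v hw4 hw0 f hT2 hv2
    intro l hl x hx
    obtain ⟨hl1, hl2⟩ := mem_filter.1 hl
    obtain ⟨⟨hl3, hl4⟩, hl5⟩ := mem_primesIn.1 hl1
    have hc := cube_gt hw4
    rcases List.mem_append.1 hx with h | h
    · obtain ⟨⟨h1, h2⟩, h3⟩ := mem_primesIn.1 (mem_toList.1 h)
      have : w ^ 3 ≤ w ^ (4 * m + 5) := Nat.pow_le_pow_right hw0 (by omega)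
      exact ⟨h3, by omega, by omega⟩
    · refine ⟨Nat.prime_of_mem_primeFactorsList h, ?_, hv2 x (List.mem_toFinset.2 h)⟩
      rintro rfl
      obtain ⟨s, hs⟩ : ((Uset w (2 * m + 8)).filter
          fun s => (uu s * v + 1).Prime ∧ x ∣ uu s * v + 2).Nonempty :=
        card_pos.1 (lt_of_lt_of_le (by omega) hl2)
      have h1 := (mem_filter.1 hs).2.2
      have h2 := Nat.le_of_dvd (by norm_num)
        ((Nat.dvd_add_right ((Nat.dvd_of_mem_primeFactorsList h).mul_left (uu s))).1 h1)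
      have : 2 ^ 3 ≤ w ^ 3 := Nat.pow_le_pow_left (by omega) 3
      omega
  obtain ⟨n, hn0, hn1, hn2⟩ := construct S G hSp
    (fun l hl => (mem_primesIn.1 (mem_filter.1 hl).1).2)
    (by
      rw [disjoint_left]
      intro p hp hpG
      have h1 := hbig p hp
      have h2 := (mem_primesIn.1 (mem_filter.1 hpG).1).1.2
      have h3 : 4 * w ^ 3 ≤ w ^ 4 := by rw [pow_succ' w 3]; exact Nat.mul_le_mul_right _ hw4
      omega) f
    (fun l hl => by
      rcases hf1 l with h | h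
      · omega
      · exact (hitem l hl _ h).1.pos)
    (fun l hl => by
      rcases hf1 l with h | h
      · rw [h]; exact Nat.coprime_one_left l
      · exact (Nat.coprime_primes (hitem l hl _ h).1
          (mem_primesIn.1 (mem_filter.1 hl).1).2).2 (hitem l hl _ h).2.1)
    (fun l hl => by
      refine le_trans ?_ ((mem_filter.1 hl).2.trans (hWS l))
      have h1 : f l ≤ w ^ (4 * m + 5) := by
        rcases hf1 l with h | h
        · rw [h]; exact Nat.one_le_pow _ _ hw0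
        · exact (hitem l hl _ h).2.2
      have h2 := (mem_primesIn.1 (mem_filter.1 hl).1).1.2
      calc f l * l ^ 2 ≤ w ^ (4 * m + 5) * (4 * w ^ 3) ^ 2 :=
            Nat.mul_le_mul h1 (Nat.pow_le_pow_left h2 2)
        _ = 16 * w ^ (4 * m + 11) := by ring
        _ ≤ w * w ^ (4 * m + 11) := Nat.mul_le_mul_right _ (by omega)
        _ = _ := by ring)
    (fun p hp => by
      obtain ⟨s, hs, rfl⟩ := mem_image.1 hp
      rw [hf2, hms, List.prod_append, Nat.prod_primeFactorsList (by omega), Nat.add_sub_cancel,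
        prod_toList]
      exact Nat.mul_dvd_mul_right (uu_dvd (mem_filter.1 hs).1) v)
  obtain ⟨l, hl⟩ : G.Nonempty := card_pos.1 (lt_of_lt_of_le (by positivity) hG)
  have hS2 : 1 < S.card :=
    lt_of_lt_of_le hT2 (((mem_filter.1 hl).2.trans (hWS l)).trans (card_filter_le _ _))
  obtain ⟨p, hp, p', hp', hne⟩ := one_lt_card.1 hS2
  have d1 : p ∣ n := (dvd_prod_of_mem (fun p => p) hp).trans hn1
  have d2 : p' ∣ n := (dvd_prod_of_mem (fun p => p) hp').trans hn1
  refine ⟨n, ?_, fun hn => hne ?_, hn2⟩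
  · have h1 := Nat.le_of_dvd hn0 d1
    have h2 := hbig p hp
    have h3 : w ≤ w ^ 4 := Nat.le_self_pow (by norm_num) w
    omega
  · rw [(Nat.prime_dvd_prime_iff_eq (hSp p hp) hn).1 d1,
      (Nat.prime_dvd_prime_iff_eq (hSp p' hp') hn).1 d2]

lemma ev_main {m : ℕ} (hm : 80000 * (8 * m + 46) ≤ m ^ 2) : ∀ᶠ w : ℕ in atTop,
    ∃ n : ℕ, w < n ∧ ¬ n.Prime ∧ ∀ a : ℤ, IsCoprime a (n : ℤ) → (n : ℤ) ∣ a ^ sigma 1 n - 1 := by
  set k := 2 * m + 8 with hk
  set J := 8 * m + 46 with hJ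
  set c : ℝ := 20 * 32 ^ k * k.factorial with hc
  have hc0 : 0 < c := by positivity
  have tJ : Tendsto (fun w : ℕ => w ^ J) atTop atTop := tendsto_pow_atTop (by omega)
  have hJ1 : (1 : ℝ) ≤ J := by exact_mod_cast (by omega : 1 ≤ J)
  filter_upwards [eventually_ge_atTop (4 * m + 30), eventually_gt_atTop (4 ^ (k + 1)),
    tJ.eventually ev_theta, ev_eta k, ev_log_pow (2 * J) 1,
    ev_log_pow (88 * J ^ 2 * (2 * J) ^ 4 * c) (k + 5),
    ev_log_pow ((8 * 4 ^ k + 3) * (8 * J) * c) (k + 2)] with w h1 h2 h3 h4 h5 h6 h7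
  have hw0 : (4 : ℝ) ≤ w := by exact_mod_cast (by omega : 4 ≤ w)
  have hlam : 1 ≤ Real.log w := by
    refine le_trans ?_ (Real.log_le_log (by norm_num) hw0)
    rw [Real.le_log_iff_exp_le (by norm_num)]
    have := Real.exp_one_lt_d9; linarith
  have hlx : Real.log (w ^ J : ℕ) = J * Real.log w := by push_cast; rw [Real.log_pow]
  have hL : 1 + Real.log (w ^ J : ℕ) ≤ 2 * J * Real.log w := by clear * - w J hlx hJ1 hlam; rw [hlx]; nlinarith
  have hL0 : 0 ≤ 1 + Real.log (w ^ J : ℕ) := by clear * - w J hlx hL; rw [hlx]; nlinarith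
  rw [pow_one] at h5
  change 1 ≤ eta w k * (c * Real.log w ^ (k + 1)) at h4
  have hη : 0 ≤ eta w k := sum_nonneg fun _ _ => by positivity
  have key : ∀ (A : ℝ) (j : ℕ), 0 ≤ A → A * c * Real.log w ^ (k + 1 + j) ≤ w →
      A * Real.log w ^ j ≤ eta w k * w := by
    clear * - c w k hlam h4 m hη
    intro A j hA h
    calc A * Real.log w ^ j ≤ A * Real.log w ^ j * (eta w k * (c * Real.log w ^ (k + 1))) :=
          le_mul_of_one_le_right (by positivity) h4
      _ = eta w k * (A * c * Real.log w ^ (k + 1 + j)) := by ring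
      _ ≤ _ := mul_le_mul_of_nonneg_left h hη
  have h8 := sum_WW_lower hm (by omega) h2 (hL.trans h5) hlam h3 (by
    refine le_trans ?_ (key _ 4 (by positivity) h6)
    rw [mul_assoc (88 * (J : ℝ) ^ 2), ← mul_pow]
    exact mul_le_mul_of_nonneg_left (pow_le_pow_left₀ hL0 hL 4) (by positivity))
  obtain ⟨v, hv, hG⟩ := exists_cofactor (m := m) (w := w) (by omega)
    (eta w k / (8 * J * Real.log w)) (by rw [div_mul_eq_mul_div]; exact h8) (by
      rw [div_mul_eq_mul_div, le_div_iff₀ (by positivity)]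
      refine le_trans (le_of_eq ?_) (key _ 1 (by positivity) h7)
      ring)
  exact of_cofactor h1 hv hG

theorem infinite_admissible :
    Set.Infinite {n : ℕ | 1 < n ∧ ¬ n.Prime ∧
      ∀ a b : ℤ, IsCoprime (a * b) (n : ℤ) → (n : ℤ) ∣ a ^ (sigma 1 n) - b ^ (sigma 1 n)} := by
  apply Set.infinite_of_forall_exists_gt
  intro B
  obtain ⟨w, hw, n, h1, h2, h3⟩ :=
    ((eventually_ge_atTop (B + 1)).and (ev_main (m := 1000000) (by norm_num))).exists
  refine ⟨n, ⟨by omega, h2, fun a b hab => ?_⟩, by omega⟩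
  have := dvd_sub (h3 a hab.of_mul_left_left) (h3 b hab.of_mul_left_right)
  simpa using this

end Pool.Agent.Work.MP_75d6d0_nt
end
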